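import Pool.Agent.PLG.Stmts

/-!
# Squad PLG, row FNL (helper39)

Many short vectors with the same multipliers give a rich line.
-/

set_option autoImplicit false

namespace Pool.Agent.PLG.H39

open Module

/-- the sizes of all the multiples at once -/
noncomputable def fmul {E : Type} [NormedAddCommGroup E] (f : ℂ →+ E) {e : ℕ} (μ : Fin e → ℝ) :
    ℂ →+ (Fin e → E) :=
  AddMonoidHom.mk' (fun x i => f (((μ i : ℝ) : ℂ) * x)) (by
    intro a b
    funext i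
    simp only [Pi.add_apply]
    rw [mul_add, map_add])

theorem fmul_apply {E : Type} [NormedAddCommGroup E] (f : ℂ →+ E) {e : ℕ} (μ : Fin e → ℝ)
    (x : ℂ) (i : Fin e) : fmul f μ x i = f (((μ i : ℝ) : ℂ) * x) := rfl

/-- the combinations with natural coefficients are different -/
theorem comb_inj {e : ℕ} {μ : Fin e → ℝ} (hμ : LinearIndependent ℚ μ) {u : ℂ} (hu : u ≠ 0)
    {a b : Fin e → ℕ}
    (h : ∑ i, ((a i : ℕ) : ℂ) * (((μ i : ℝ) : ℂ) * u) = ∑ i, ((b i : ℕ) : ℂ) * (((μ i : ℝ) : ℂ) * u)) :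
    a = b := by
  have h1 : (∑ i, ((a i : ℕ) : ℂ) * ((μ i : ℝ) : ℂ)) * u
      = (∑ i, ((b i : ℕ) : ℂ) * ((μ i : ℝ) : ℂ)) * u := by
    rw [Finset.sum_mul, Finset.sum_mul]
    simp only [mul_assoc]
    exact h
  have h2 := mul_right_cancel₀ hu h1
  have h3 : (∑ i, ((a i : ℕ) : ℝ) * μ i) = ∑ i, ((b i : ℕ) : ℝ) * μ i := by
    have h4 : ((∑ i, ((a i : ℕ) : ℝ) * μ i : ℝ) : ℂ) = ((∑ i, ((b i : ℕ) : ℝ) * μ i : ℝ) : ℂ) := by
      push_cast
      exact h2
    exact_mod_cast h4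
  have h5 : ∑ i, ((a i : ℚ) - (b i : ℚ)) • μ i = 0 := by
    have h6 : ∀ i, ((a i : ℚ) - (b i : ℚ)) • μ i = ((a i : ℕ) : ℝ) * μ i - ((b i : ℕ) : ℝ) * μ i := by
      intro i
      rw [Rat.smul_def]
      push_cast
      ring
    rw [Finset.sum_congr rfl fun i _ => h6 i, Finset.sum_sub_distrib, h3, sub_self]
  funext i
  have h7 := (Fintype.linearIndependent_iff.1 hμ) _ h5 i
  have h8 : (a i : ℚ) = (b i : ℚ) := sub_eq_zero.1 h7
  exact_mod_cast h8

/-- row FNL -/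
theorem fnl (hpkv : PkvStmt) : FnlStmt := by
  intro E _ _ f G e μ X Q hD hfin hrk he hμ hQ hX hcard
  haveI := hfin
  have he0 : e ≠ 0 := by omega
  have heR : (0 : ℝ) < e := by exact_mod_cast Nat.pos_of_ne_zero he0
  -- the root of `Q`
  obtain ⟨R, hR, hRe⟩ : ∃ R : ℝ, 0 < R ∧ R ^ e = Q :=
    ⟨Q ^ ((e : ℝ)⁻¹), Real.rpow_pos_of_pos hQ _, Real.rpow_inv_natCast_pow hQ.le he0⟩
  -- the root of the number of elements
  have hn0 : (0 : ℝ) < X.card := lt_trans (by positivity) hcard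
  have h2e : 2 * e ≠ 0 := by omega
  obtain ⟨N, hN0, hNe⟩ : ∃ N : ℝ, 0 < N ∧ N ^ (2 * e) = X.card := by
    refine ⟨(X.card : ℝ) ^ (((2 * e : ℕ) : ℝ)⁻¹), Real.rpow_pos_of_pos hn0 _, ?_⟩
    exact Real.rpow_inv_natCast_pow hn0.le h2e
  have hN2 : 2 < N := by
    rw [← hNe] at hcard
    exact lt_of_pow_lt_pow_left₀ _ hN0.le hcard
  have hsize : ∀ x ∈ X, ∀ i, ‖f (((μ i : ℝ) : ℂ) * x)‖ ≤ R := by
    intro x hx i
    have h1 := ((hX x hx).2 i).2
    rw [← hRe] at h1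
    exact le_of_pow_le_pow_left₀ he0 hR.le h1
  have hρ : 0 < 4 * R / N := by positivity
  -- two close elements
  obtain ⟨x, hx, y, hy, hxy, hclose⟩ : ∃ x ∈ X, ∃ y ∈ X, x ≠ y ∧ ‖fmul f μ (x - y)‖ < 4 * R / N := by
    by_contra hcon
    push_neg at hcon
    have h1 := hpkv (Fin e → E) (fmul f μ) (sp G) hfin X (4 * R / N) R hρ hR.le
      (fun x hx => ⟨le_sp (hX x hx).1, (pi_norm_le_iff_of_nonneg hR.le).2 (hsize x hx)⟩) hcon
    have h2 : 1 + 2 * R / (4 * R / N) = 1 + N / 2 := by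
      field_simp
      ring
    rw [h2] at h1
    have h3 : (1 + N / 2) ^ finrank ℚ (sp G) ≤ (1 + N / 2) ^ (2 * e) :=
      pow_le_pow_right₀ (by linarith) hrk
    have h4 : (1 + N / 2) ^ (2 * e) < N ^ (2 * e) :=
      pow_lt_pow_left₀ (by linarith) (by linarith) h2e
    rw [hNe] at h4
    linarith
  have hu : x - y ≠ 0 := sub_ne_zero.2 hxy
  set u := x - y with hudef
  set ρ := 4 * R / N with hρdef
  have hmem : ∀ i, ((μ i : ℝ) : ℂ) * u ∈ lz G u := by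
    intro i
    refine mem_lz.2 ⟨?_, μ i, rfl⟩
    rw [hudef, mul_sub]
    exact G.sub_mem ((hX x hx).2 i).1 ((hX y hy).2 i).1
  have hsz : ∀ i, ‖f (((μ i : ℝ) : ℂ) * u)‖ ≤ ρ := by
    intro i
    have h1 := norm_le_pi_norm (fmul f μ u) i
    rw [fmul_apply] at h1
    exact h1.trans hclose.le
  -- the number of multiples
  set m := ⌊1 / (e * ρ)⌋₊ with hm
  have hm1 : (m : ℝ) ≤ 1 / (e * ρ) := Nat.floor_le (by positivity)
  have hm2 : 1 / (e * ρ) < (m : ℝ) + 1 := Nat.lt_floor_add_one _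
  have hDz : Dsc f (lz G u) := hD.lz u
  have hcnt : (m + 1) ^ e ≤ cnt f (lz G u) 1 := by
    have h1 : Fintype.card (Fin e → Fin (m + 1)) = (m + 1) ^ e := by simp
    rw [← h1, ← Finset.card_univ]
    unfold cnt
    refine Finset.card_le_card_of_injOn
      (fun a : Fin e → Fin (m + 1) => ∑ i, (((a i : ℕ) : ℕ) : ℂ) * (((μ i : ℝ) : ℂ) * u)) ?_ ?_
    · intro a _
      rw [Finset.mem_coe, mem_bl hDz]
      constructor
      · exact AddSubgroup.sum_mem _ fun i _ => mem_of_nat_mul _ (hmem i)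
      · rw [map_sum]
        refine (norm_sum_le _ _).trans ?_
        have h2 : ∀ i ∈ (Finset.univ : Finset (Fin e)),
            ‖f ((((a i : ℕ) : ℕ) : ℂ) * (((μ i : ℝ) : ℂ) * u))‖ ≤ (m : ℝ) * ρ := by
          intro i _
          rw [norm_f_nat]
          have h3 : ((a i : ℕ) : ℝ) ≤ m := by exact_mod_cast Nat.lt_succ_iff.1 (a i).2
          exact mul_le_mul h3 (hsz i) (norm_nonneg _) (Nat.cast_nonneg _)
        refine (Finset.sum_le_sum h2).trans ?_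
        rw [Finset.sum_const, Finset.card_univ, Fintype.card_fin, nsmul_eq_mul]
        have h4 : (e : ℝ) * (m * ρ) = m * (e * ρ) := by ring
        rw [h4]
        have h5 : (0 : ℝ) < e * ρ := by positivity
        calc (m : ℝ) * (e * ρ) ≤ 1 / (e * ρ) * (e * ρ) := mul_le_mul_of_nonneg_right hm1 h5.le
          _ = 1 := by field_simp
    · intro a _ b _ hab
      have h6 := comb_inj hμ hu (a := fun i => (a i : ℕ)) (b := fun i => (b i : ℕ)) hab
      funext i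
      exact Fin.ext (congrFun h6 i)
  have hcnt' : (1 / (e * ρ)) ^ e ≤ (cnt f (lz G u) 1 : ℝ) := by
    have h1 : ((m + 1 : ℕ) : ℝ) ^ e ≤ (cnt f (lz G u) 1 : ℝ) := by exact_mod_cast hcnt
    refine le_trans ?_ h1
    have h2 : (0 : ℝ) ≤ 1 / (e * ρ) := by positivity
    push_cast
    exact pow_le_pow_left₀ h2 hm2.le e
  refine ⟨u, hu, ?_⟩
  have h7 : ((1 / (e * ρ)) ^ e) ^ 2 ≤ (cnt f (lz G u) 1 : ℝ) ^ 2 :=
    pow_le_pow_left₀ (by positivity) hcnt' 2
  have h8 : (X.card : ℝ) = (4 * e) ^ (2 * e) * Q ^ 2 * ((1 / (e * ρ)) ^ e) ^ 2 := by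
    rw [← hNe, ← hRe, ← pow_mul, ← pow_mul, hρdef, mul_comm e 2, ← mul_pow, ← mul_pow]
    have h9 : 4 * (e : ℝ) * R * (1 / (e * (4 * R / N))) = N := by
      field_simp
    rw [h9]
  rw [h8]
  exact mul_le_mul_of_nonneg_left h7 (by positivity)

end Pool.Agent.PLG.H39
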