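import Pool.Agent.PLG.Stmts

/-!
# Squad PLG, row STR (helper39)

The structure theorem by induction on the rational rank.
-/

set_option autoImplicit false

namespace Pool.Agent.PLG.H39

open Module

theorem struc_mono {d C C' : ℕ} (h : Struc d C) (hC : C ≤ C') : Struc d C' := by
  intro E _ _ f G Θ L j R hD hfin hrk hL hj hR hlines hG
  have hL1 : (1 : ℝ) ≤ L := by linarith
  have hp : L ^ C ≤ L ^ C' := pow_le_pow_right₀ hL1 hC
  obtain ⟨z, hz, hc⟩ := h E f G Θ L j R hD hfin hrk hL (hp.trans hj) hR hlines hG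
  exact ⟨z, hz, hc.trans (mul_le_mul_of_nonneg_right hp (sq_nonneg _))⟩

/-- the scaled size -/
noncomputable def scl {E : Type} [NormedAddCommGroup E] [NormedSpace ℝ E] (f : ℂ →+ E) (R : ℝ) :
    ℂ →+ E := (DistribSMul.toAddMonoidHom E R⁻¹).comp f

theorem norm_scl {E : Type} [NormedAddCommGroup E] [NormedSpace ℝ E] (f : ℂ →+ E) {R : ℝ}
    (hR : 0 < R) (x : ℂ) : ‖scl f R x‖ = R⁻¹ * ‖f x‖ := by
  have h : scl f R x = R⁻¹ • f x := rfl
  rw [h, norm_smul, Real.norm_eq_abs, abs_of_pos (inv_pos.2 hR)]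

theorem norm_scl_le {E : Type} [NormedAddCommGroup E] [NormedSpace ℝ E] (f : ℂ →+ E) {R : ℝ}
    (hR : 0 < R) (x : ℂ) (r : ℝ) : ‖scl f R x‖ ≤ r ↔ ‖f x‖ ≤ R * r := by
  rw [norm_scl f hR, inv_mul_le_iff₀ hR]

theorem dsc_scl {E : Type} [NormedAddCommGroup E] [NormedSpace ℝ E] {f : ℂ →+ E} {R : ℝ}
    (hR : 0 < R) {G : AddSubgroup ℂ} (h : Dsc f G) : Dsc (scl f R) G := by
  intro r
  refine (h (R * r)).subset ?_
  intro x hx
  exact ⟨hx.1, (norm_scl_le f hR x r).1 hx.2⟩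

theorem cnt_scl {E : Type} [NormedAddCommGroup E] [NormedSpace ℝ E] {f : ℂ →+ E} {R : ℝ}
    (hR : 0 < R) {G : AddSubgroup ℂ} (h : Dsc f G) : cnt (scl f R) G 1 = cnt f G R := by
  unfold cnt
  have : bl (scl f R) G 1 = bl f G R := by
    ext x
    rw [mem_bl (dsc_scl hR h), mem_bl h, norm_scl_le f hR, mul_one]
  rw [this]

theorem struc_zero : Struc 0 0 := by
  intro E _ _ f G Θ L j R hD hfin hrk hL hj hR hlines hG
  have hbot : sp G = ⊥ := by
    haveI := hfin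
    exact Submodule.finrank_eq_zero.1 (Nat.le_zero.1 hrk)
  have hG0 : ∀ x ∈ G, x = 0 := by
    intro x hx
    have h1 : x ∈ sp G := le_sp hx
    rw [hbot] at h1
    exact (Submodule.mem_bot ℚ).1 h1
  have h1 : cnt f G R ≤ 1 := by
    unfold cnt
    refine Finset.card_le_one.2 ?_
    intro a ha b hb
    rw [mem_bl hD] at ha hb
    rw [hG0 a ha.1, hG0 b hb.1]
  have h2 : 1 ≤ cnt f (lz G 1) R := one_le_cnt (hD.lz 1) hR.le
  refine ⟨1, one_ne_zero, ?_⟩
  have h1' : (cnt f G R : ℝ) ≤ 1 := by exact_mod_cast h1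
  have h2' : (1 : ℝ) ≤ (cnt f (lz G 1) R : ℝ) := by exact_mod_cast h2
  have h3 : (1 : ℝ) ≤ (cnt f (lz G 1) R : ℝ) ^ 2 := one_le_pow₀ h2'
  rw [pow_zero, one_mul]
  exact h1'.trans h3

/-- row STR: the structure theorem -/
theorem str (hthk : ThkStmt) (hthn : ThnStmt) : StrStmt := by
  intro d
  induction d with
  | zero => exact ⟨0, struc_zero⟩
  | succ d ih =>
    obtain ⟨C', hC'⟩ := ih
    obtain ⟨c, C₁, hC₁⟩ := hthk (d + 1)
    obtain ⟨C₂, hC₂⟩ := hthn d c C' hC'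
    refine ⟨max C' (max C₁ C₂), ?_⟩
    intro E _ _ f G Θ L j R hD hfin hrk hL hj hR hlines hG
    have hL1 : (1 : ℝ) ≤ L := by linarith
    rcases Nat.lt_or_ge d (finrank ℚ (sp G)) with hlt | hle
    · have hrk' : finrank ℚ (sp G) = d + 1 := le_antisymm hrk hlt
      have hD' := dsc_scl hR hD
      have hlines' : ∀ t ∈ Θ, j ≤ cnt (scl f R) (lp G t) 1 := by
        intro t ht
        rw [cnt_scl hR (hD.lp t)]
        exact hlines t ht
      have hG' : (cnt (scl f R) G 1 : ℝ) ≤ L * Θ.card * j ^ 2 := by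
        rw [cnt_scl hR hD]
        exact hG
      have hp₁ : L ^ C₁ ≤ L ^ max C' (max C₁ C₂) :=
        pow_le_pow_right₀ hL1 ((le_max_left _ _).trans (le_max_right _ _))
      have hp₂ : L ^ C₂ ≤ L ^ max C' (max C₁ C₂) :=
        pow_le_pow_right₀ hL1 ((le_max_right _ _).trans (le_max_right _ _))
      by_cases hth : ∀ x ∈ G, x ∈ bs (scl f R) G (1 / L ^ c)
      · obtain ⟨z, hz, hc⟩ := hC₁ E (scl f R) G Θ L j hD' hfin hrk' hL (hp₁.trans hj) hlines'
          hG' hth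
        rw [cnt_scl hR hD, cnt_scl hR (hD.lz z)] at hc
        exact ⟨z, hz, hc.trans (mul_le_mul_of_nonneg_right hp₁ (sq_nonneg _))⟩
      · obtain ⟨z, hz, hc⟩ := hC₂ E (scl f R) G Θ L j hD' hfin hrk' hL (hp₂.trans hj) hlines'
          hG' hth
        rw [cnt_scl hR hD, cnt_scl hR (hD.lz z)] at hc
        exact ⟨z, hz, hc.trans (mul_le_mul_of_nonneg_right hp₂ (sq_nonneg _))⟩
    · exact struc_mono hC' (le_max_left _ _) E f G Θ L j R hD hfin hle hL hj hR hlines hG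

end Pool.Agent.PLG.H39
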